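import Pool.Agent.H16.CX.Code

/-!
# Module COB of the board cxs_modules (MP_5607ba_lc)
-/

set_option autoImplicit false

open Set Topology Filter MeasureTheory

namespace Pool.Agent.H58.CXS

open Pool.Agent.H16.CX Pool.Agent.H72.UV

attribute [local instance] Pool.Agent.H71.permTop

/-- `2 j ↦ j` for `j < n`, other `i ↦ n + i` -/
def pj (n : ℕ) : ℕ ↪ ℕ where
  toFun i := if i % 2 = 0 ∧ i < 2 * n then i / 2 else n + i
  inj' := by
    intro i j h
    dsimp only at h
    split_ifs at h with h1 h2 h2 <;> omega

lemma pj_apply (n i : ℕ) : pj n i = if i % 2 = 0 ∧ i < 2 * n then i / 2 else n + i := rfl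

lemma bl_range_apply (n i : ℕ) : bl (List.range n) List.nodup_range i =
    if i < n then 2 * i else 2 * i + 1 := by
  show blf (List.range n) i = _
  unfold blf
  by_cases h : i < n
  · rw [dif_pos (by simpa using h), if_pos h]
    simp
  · rw [dif_neg (by simpa using h), if_neg h]

/-- a permutation fixing the even numbers which brings back the odd ones -/
lemma exists_tau (n : ℕ) : ∃ τ : Equiv.Perm ℕ, (∀ i, τ (2 * i) = 2 * i) ∧
    ∀ i < 2 * n, τ (bl (List.range n) List.nodup_range (pj n i)) = i := by
  obtain ⟨g, hg⟩ := exists_perm ⟨fun k => n + 2 * k + 1, fun a b h => by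
    dsimp only at h
    omega⟩ n
  have hg' : ∀ k < n, g.symm (n + 2 * k + 1) = k := by
    intro k hk
    rw [Equiv.symm_apply_eq]
    exact (hg k hk).symm
  refine ⟨⟨fun i => if i % 2 = 0 then i else 2 * g.symm (i / 2) + 1,
    fun i => if i % 2 = 0 then i else 2 * g (i / 2) + 1, fun i => ?_, fun i => ?_⟩, ?_, ?_⟩
  · by_cases h : i % 2 = 0
    · simp [h]
    · simp only [h, if_false]
      rw [if_neg (by omega)]
      have h1 : (2 * g.symm (i / 2) + 1) / 2 = g.symm (i / 2) := by omega
      rw [h1, Equiv.apply_symm_apply]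
      omega
  · by_cases h : i % 2 = 0
    · simp [h]
    · simp only [h, if_false]
      rw [if_neg (by omega)]
      have h1 : (2 * g (i / 2) + 1) / 2 = g (i / 2) := by omega
      rw [h1, Equiv.symm_apply_apply]
      omega
  · intro i
    show (if (2 * i) % 2 = 0 then 2 * i else 2 * g.symm (2 * i / 2) + 1) = 2 * i
    rw [if_pos (by omega)]
  · intro i hi
    by_cases h : i % 2 = 0
    · have hv : bl (List.range n) List.nodup_range (pj n i) = i := by
        rw [pj_apply, if_pos ⟨h, hi⟩, bl_range_apply, if_pos (by omega)]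
        omega
      rw [hv]
      show (if i % 2 = 0 then i else 2 * g.symm (i / 2) + 1) = i
      rw [if_pos h]
    · have hv : bl (List.range n) List.nodup_range (pj n i) = 2 * (n + i) + 1 := by
        rw [pj_apply, if_neg (show ¬ (i % 2 = 0 ∧ i < 2 * n) by omega), bl_range_apply,
          if_neg (show ¬ n + i < n by omega)]
      rw [hv]
      show (if (2 * (n + i) + 1) % 2 = 0 then 2 * (n + i) + 1
        else 2 * g.symm ((2 * (n + i) + 1) / 2) + 1) = i
      rw [if_neg (by omega)]
      have h1 : (2 * (n + i) + 1) / 2 = n + 2 * (i / 2) + 1 := by omega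
      rw [h1, hg' (i / 2) (by omega)]
      omega

theorem pf_cob : T_COB := by
  intro X _ _ _ _ R x0
  have hne : Nonempty X := ⟨x0⟩
  let F : ℕ → Str ℕ X → X := fun n c => R.res (pj n) (c (List.range n))
  have hF : ∀ n, StronglyMeasurable (F n) := by
    intro n
    have h1 : Measurable (F n) := (R.cont (pj n)).measurable.comp (measurable_pi_apply _)
    exact h1.stronglyMeasurable
  refine ⟨fun c => limUnder atTop fun n => F n c,
    (StronglyMeasurable.limUnder (l := atTop) hF).measurable, fun z hz => ?_⟩
  refine Tendsto.limUnder_eq ?_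
  rw [Metric.tendsto_atTop]
  intro ε hε
  obtain ⟨m, hm⟩ := R.unif (ε / 2) (by positivity)
  refine ⟨m, fun n hn => ?_⟩
  obtain ⟨τ, hτ, hτ'⟩ := exists_tau n
  have h1 : F n (cz R x0 z) =
      R.res (((pj n).trans (bl (List.range n) List.nodup_range)).trans (pe τ)) z := by
    show R.res (pj n) (cz R x0 z (List.range n)) = _
    have h2 : cz R x0 z (List.range n) = R.res (bl (List.range n) List.nodup_range) z := by
      unfold cz
      rw [dif_pos List.nodup_range]
    rw [h2, ← R.comp, R.comp (pe τ), hz τ hτ]
  rw [h1]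
  have h2 := hm (((pj n).trans (bl (List.range n) List.nodup_range)).trans (pe τ))
    (Function.Embedding.refl ℕ) (fun i hi => hτ' i (by omega)) z
  rw [R.one] at h2
  linarith

end Pool.Agent.H58.CXS
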