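import Pool.Agent.H16.CX.Basic

/-!
# Module CPA of the board cxs_modules (MP_5607ba_lc)
-/

set_option autoImplicit false

open Set Topology Filter MeasureTheory

namespace Pool.Agent.H58.CXS

open Pool.Agent.H16.CX

attribute [local instance] Pool.Agent.H71.permTop

/-- the permutation `g` shifted by `n` -/
def sh (n : ℕ) (g : Equiv.Perm ℕ) : Equiv.Perm ℕ where
  toFun i := if i < n then i else n + g (i - n)
  invFun i := if i < n then i else n + g.symm (i - n)
  left_inv i := by
    by_cases h : i < n
    · simp [h]
    · simp only [h, if_false]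
      have h1 : ¬ (n + g (i - n) < n) := by omega
      rw [if_neg h1, Nat.add_sub_cancel_left, Equiv.symm_apply_apply]
      omega
  right_inv i := by
    by_cases h : i < n
    · simp [h]
    · simp only [h, if_false]
      have h1 : ¬ (n + g.symm (i - n) < n) := by omega
      rw [if_neg h1, Nat.add_sub_cancel_left, Equiv.apply_symm_apply]
      omega

lemma sh_apply (n : ℕ) (g : Equiv.Perm ℕ) (i : ℕ) :
    sh n g i = if i < n then i else n + g (i - n) := rfl

lemma sh_symm_apply (n : ℕ) (g : Equiv.Perm ℕ) (i : ℕ) :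
    (sh n g).symm i = if i < n then i else n + g.symm (i - n) := rfl

lemma sh_one (n : ℕ) : sh n 1 = 1 := by
  ext i
  rw [sh_apply]
  split_ifs with h
  · rfl
  · simp only [Equiv.Perm.coe_one, id_eq]
    omega

lemma sh_mul (n : ℕ) (g h : Equiv.Perm ℕ) : sh n (g * h) = sh n g * sh n h := by
  ext i
  rw [Equiv.Perm.mul_apply, sh_apply, sh_apply n h]
  split_ifs with h1
  · rw [sh_apply, if_pos h1]
  · rw [sh_apply, if_neg (by omega), Nat.add_sub_cancel_left]
    rfl

lemma sh_mem (n : ℕ) (g : Equiv.Perm ℕ) : sh n g ∈ VS n := by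
  intro i hi
  rw [sh_apply, if_pos hi]

lemma exists_sh (n : ℕ) (g : Equiv.Perm ℕ) (hg : g ∈ VS n) : ∃ h, g = sh n h := by
  have h1 : ∀ i, n ≤ i → n ≤ g i := by
    intro i hi
    by_contra hcon
    push Not at hcon
    have h2 := hg (g i) hcon
    have h3 := g.injective h2
    omega
  have h1' : ∀ i, n ≤ i → n ≤ g.symm i := by
    intro i hi
    by_contra hcon
    push Not at hcon
    have h2 := hg (g.symm i) hcon
    rw [Equiv.apply_symm_apply] at h2
    omega
  refine ⟨⟨fun i => g (n + i) - n, fun i => g.symm (n + i) - n, fun i => ?_, fun i => ?_⟩, ?_⟩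
  · have h2 := h1 (n + i) (by omega)
    show g.symm (n + (g (n + i) - n)) - n = i
    rw [Nat.add_sub_cancel' h2, Equiv.symm_apply_apply]
    omega
  · have h2 := h1' (n + i) (by omega)
    show g (n + (g.symm (n + i) - n)) - n = i
    rw [Nat.add_sub_cancel' h2, Equiv.apply_symm_apply]
    omega
  · ext i
    rw [sh_apply]
    split_ifs with h2
    · exact hg i h2
    · show g i = n + (g (n + (i - n)) - n)
      have h3 : n + (i - n) = i := by omega
      rw [h3]
      have := h1 i (by omega)
      omega

lemma continuous_sh (n : ℕ) : Continuous (sh n) := by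
  refine Pool.Agent.H71.continuous_to_perm (fun i => ?_) fun i => ?_
  · by_cases h : i < n
    · simp only [sh_apply, h, if_true]
      exact continuous_const
    · simp only [sh_apply, h, if_false]
      exact (continuous_of_discreteTopology (f := fun m : ℕ => n + m)).comp
        (Pool.Agent.H71.continuous_perm_apply _)
  · by_cases h : i < n
    · simp only [sh_symm_apply, h, if_true]
      exact continuous_const
    · simp only [sh_symm_apply, h, if_false]
      exact (continuous_of_discreteTopology (f := fun m : ℕ => n + m)).comp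
        (Pool.Agent.H71.continuous_perm_symm_apply _)

theorem pf_cpa : T_UNI → T_CPT → T_CPA := by
  intro hUNI hCPT X _ _ _ _ _ hact n K hK hinv
  letI : MetricSpace X := TopologicalSpace.metrizableSpaceMetric X
  let act : MulAction (Equiv.Perm ℕ) K :=
    { smul := fun g y => ⟨sh n g • (y : X), hinv _ (sh_mem n g) _ y.2⟩
      one_smul := fun y => Subtype.ext (by
        show sh n 1 • (y : X) = y
        rw [sh_one, one_smul])
      mul_smul := fun g h y => Subtype.ext (by
        show sh n (g * h) • (y : X) = sh n g • (sh n h • (y : X))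
        rw [sh_mul, mul_smul]) }
  have hKc : CompactSpace K := isCompact_iff_compactSpace.1 hK
  have hcont : Continuous (fun p : Equiv.Perm ℕ × K => p.1 • p.2) := by
    refine Continuous.subtype_mk ?_ _
    exact hact.comp (((continuous_sh n).comp continuous_fst).prodMk
      (continuous_subtype_val.comp continuous_snd))
  obtain ⟨R, hR⟩ := hUNI K hcont
  have hR' : ∀ (g : Equiv.Perm ℕ) (y : K), ((R.res (pe g) y : K) : X) = sh n g⁻¹ • (y : X) := by
    intro g y
    rw [hR]
    rfl
  rcases hCPT K R with ⟨D, hD, hD'⟩ | ⟨f, hf, hf'⟩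
  · left
    refine ⟨Subtype.val '' D, hD.image _, fun x hx => ?_⟩
    obtain ⟨d, hd, g, hg⟩ := hD' ⟨x, hx⟩
    refine ⟨sh n g⁻¹, sh_mem _ _, d, hd, ?_⟩
    rw [← hg, hR']
  · right
    refine ⟨fun s => (f s : X), measurable_subtype_coe.comp hf, ?_⟩
    intro s t hst g hg hE
    obtain ⟨h, rfl⟩ := exists_sh n g hg
    refine hf' s t hst ⟨h⁻¹, Subtype.ext ?_⟩
    rw [hR', inv_inv]
    exact hE

end Pool.Agent.H58.CXS
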