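import Pool.Agent.H16.CX.Basic
import Pool.Agent.H59.TV.Smooth

/-!
# Module LOC of the board cxs_modules (MP_5607ba_lc)
-/

set_option autoImplicit false

open Set Topology Filter MeasureTheory

namespace Pool.Agent.H58.CXS

open Pool.Agent.H16.CX

attribute [local instance] Pool.Agent.H71.permTop

lemma vs_mul {n : ℕ} {g h : Equiv.Perm ℕ} (hg : g ∈ VS n) (hh : h ∈ VS n) : g * h ∈ VS n := by
  intro i hi
  rw [Equiv.Perm.mul_apply, hh i hi, hg i hi]

lemma vs_inv {n : ℕ} {g : Equiv.Perm ℕ} (hg : g ∈ VS n) : g⁻¹ ∈ VS n := by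
  intro i hi
  rw [Equiv.Perm.inv_eq_iff_eq]
  exact (hg i hi).symm

lemma vs_one (n : ℕ) : (1 : Equiv.Perm ℕ) ∈ VS n := fun _ _ => rfl

theorem pf_loc : T_CCA → T_CPA → T_LOC := by
  classical
  intro hCCA hCPA X _ _ _ _ _ _ _ hact hloc
  by_cases hP : ∃ f : (ℕ → Bool) → X, Measurable f ∧ ∀ s t, s ≠ t →
      ∀ g : Equiv.Perm ℕ, g • f s ≠ f t
  · exact Or.inr hP
  left
  have hno : ∀ n, ¬ ∃ f : (ℕ → Bool) → X, Measurable f ∧ ∀ s t, s ≠ t → ∀ g ∈ VS n,
      g • f s ≠ f t := by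
    rintro n ⟨f, hf, hf'⟩
    exact hP (hCCA X hact n f hf hf')
  have hgc : ∀ g : Equiv.Perm ℕ, Continuous fun x : X => g • x := fun g =>
    hact.comp (continuous_const.prodMk continuous_id)
  -- a countable basis
  obtain ⟨b, hb, -, hbas⟩ := TopologicalSpace.exists_countable_basis X
  obtain ⟨U, hU⟩ := (hb.insert (Set.univ : Set X)).exists_eq_range (Set.insert_nonempty _ _)
  have hUo : ∀ j, IsOpen (U j) := by
    intro j
    have h1 : U j ∈ insert (Set.univ : Set X) b := hU ▸ ⟨j, rfl⟩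
    rcases h1 with h1 | h1
    · rw [h1]
      exact isOpen_univ
    · exact hbas.isOpen h1
  have hUb : ∀ (x : X) (V : Set X), IsOpen V → x ∈ V → ∃ j, x ∈ U j ∧ U j ⊆ V := by
    intro x V hV hx
    obtain ⟨v, hv, hxv, hvV⟩ := hbas.exists_subset_of_mem_open hx hV
    have h1 : v ∈ Set.range U := hU ▸ Set.mem_insert_of_mem _ hv
    obtain ⟨j, rfl⟩ := h1
    exact ⟨j, hxv, hvV⟩
  let Φ : ℕ → X → ℕ → Bool := fun n x j => decide (∃ g ∈ VS n, g • x ∈ U j)
  have hΦ : ∀ n x j, Φ n x j = true ↔ ∃ g ∈ VS n, g • x ∈ U j := fun n x j => by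
    simp [Φ]
  have hΦm : ∀ n, Measurable (Φ n) := by
    intro n
    refine measurable_pi_iff.2 fun j => measurable_to_bool ?_
    have h1 : (fun x => Φ n x j) ⁻¹' {true} = ⋃ g ∈ VS n, (fun x : X => g • x) ⁻¹' U j := by
      ext x
      simp only [Set.mem_preimage, Set.mem_singleton_iff, hΦ, Set.mem_iUnion, exists_prop]
    rw [h1]
    exact (isOpen_biUnion fun g _ => (hUo j).preimage (hgc g)).measurableSet
  have hC : ∀ n x y, y ∈ closure {y | ∃ g ∈ VS n, g • x = y} ↔ ∀ j, y ∈ U j → Φ n x j = true := by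
    intro n x y
    rw [mem_closure_iff]
    constructor
    · intro h j hj
      obtain ⟨z, hz, g, hg, rfl⟩ := h (U j) (hUo j) hj
      exact (hΦ n x j).2 ⟨g, hg, hz⟩
    · intro h V hV hy
      obtain ⟨j, hj, hjV⟩ := hUb y V hV hy
      obtain ⟨g, hg, hgx⟩ := (hΦ n x j).1 (h j hj)
      exact ⟨g • x, hjV hgx, g, hg, rfl⟩
  have hCeq : ∀ n x x', Φ n x = Φ n x' →
      closure {y | ∃ g ∈ VS n, g • x = y} = closure {y | ∃ g ∈ VS n, g • x' = y} := by
    intro n x x' h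
    ext y
    rw [hC, hC, h]
  have hinv : ∀ n (g : Equiv.Perm ℕ) x, g ∈ VS n → Φ n (g • x) = Φ n x := by
    intro n g x hg
    funext j
    rw [Bool.eq_iff_iff, hΦ, hΦ]
    constructor
    · rintro ⟨k, hk, hkx⟩
      exact ⟨k * g, vs_mul hk hg, by rwa [mul_smul]⟩
    · rintro ⟨k, hk, hkx⟩
      refine ⟨k * g⁻¹, vs_mul hk (vs_inv hg), ?_⟩
      rwa [mul_smul, inv_smul_smul]
  have hcount : ∀ n, (Set.range (Φ n)).Countable := by
    intro n
    by_contra hcon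
    obtain ⟨f, hf, hf'⟩ := Pool.Agent.H59.TV.exists_perfect_of_smooth (Φ n) (hΦm n) hcon
    refine hno n ⟨f, hf, fun s t hst g hg hE => hf' s t hst ?_⟩
    rw [← hE, hinv n g (f s) hg]
  have hsel : ∀ (n : ℕ) (v : ℕ → Bool), ∃ D : Set X, D.Countable ∧
      ∀ x, Φ n x = v → IsCompact (closure {y | ∃ g ∈ VS n, g • x = y}) →
        ∀ y ∈ closure {y | ∃ g ∈ VS n, g • x = y}, ∃ g ∈ VS n, g • y ∈ D := by
    intro n v
    by_cases h : ∃ x, Φ n x = v ∧ IsCompact (closure {y | ∃ g ∈ VS n, g • x = y})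
    · obtain ⟨x, hx, hK⟩ := h
      have hKinv : ∀ g ∈ VS n, ∀ y ∈ closure {y | ∃ g ∈ VS n, g • x = y},
          g • y ∈ closure {y | ∃ g ∈ VS n, g • x = y} := by
        intro g hg y hy
        refine map_mem_closure (hgc g) hy ?_
        rintro _ ⟨k, hk, rfl⟩
        exact ⟨g * k, vs_mul hg hk, mul_smul _ _ _⟩
      rcases hCPA X hact n _ hK hKinv with ⟨D, hD, hD'⟩ | h1
      · refine ⟨D, hD, fun x' hx' _ y hy => hD' y ?_⟩
        rw [hCeq n x x' (hx.trans hx'.symm)]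
        exact hy
      · exact absurd h1 (hno n)
    · push Not at h
      exact ⟨∅, Set.countable_empty, fun x hx hK => absurd hK (h x hx)⟩
  choose D hD hD' using hsel
  refine ⟨⋃ n, ⋃ v ∈ Set.range (Φ n), D n v,
    Set.countable_iUnion fun n => (hcount n).biUnion fun v _ => hD n v, fun x => ?_⟩
  obtain ⟨n, hn⟩ := hloc x
  obtain ⟨g, -, hg⟩ := hD' n (Φ n x) x rfl hn x (subset_closure ⟨1, vs_one n, one_smul _ _⟩)
  refine ⟨g, ?_⟩
  simp only [Set.mem_iUnion]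
  exact ⟨n, Φ n x, ⟨x, rfl⟩, hg⟩

end Pool.Agent.H58.CXS
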